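import Pool.Agent.Helper68.GP2.EP
import Pool.Agent.Helper91.GP.QCEN
import Pool.Agent.Helper91.GP.QSEM
import Pool.Agent.Helper91.GP.QRANK

/-!
# Board GP2, packages CEN2 and CNT2
-/

open CategoryTheory MonoidalCategory Limits BraidedCategory

namespace Pool.Agent.Helper68.GP2

open Pool.Agent.TH90.AB Pool.Agent.TH90.Kim Pool.Agent.Helper96.Kim Pool.Agent.Helper96.SP
  Pool.Agent.Helper91.GP

theorem actS_basis (D n : ℕ) (g : Equiv.Perm (Fin n)) (w' : Fin n → Fin (D + 1)) :
    actS D n (MonoidAlgebra.single g 1) (Pi.single (w' ∘ g) 1) = ep g w' • Pi.single w' 1 := by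
  funext w
  rw [actS_single, one_mul, Pi.smul_apply, smul_eq_mul]
  by_cases h : w = w'
  · subst h
    rw [Pi.single_eq_same, Pi.single_eq_same]
  · rw [Pi.single_eq_of_ne h, Pi.single_eq_of_ne, mul_zero, mul_zero]
    intro h'
    apply h
    funext i
    have := congrFun h' (g.symm i)
    simpa using this

/-- the matrix entries -/
theorem entryS (D n : ℕ) (f : Module.End ℚ ((Fin n → Fin (D + 1)) → ℚ))
    (hf : f ∈ Subalgebra.centralizer ℚ (Set.range (actS D n))) (g : Equiv.Perm (Fin n))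
    (w w' : Fin n → Fin (D + 1)) :
    ep g w * f (Pi.single (w' ∘ g) 1) (w ∘ g) = ep g w' * f (Pi.single w' 1) w := by
  have h1 := (Subalgebra.mem_centralizer_iff ℚ).1 hf (actS D n (MonoidAlgebra.single g 1))
    ⟨_, rfl⟩
  have h2 := congrArg (fun φ : Module.End ℚ ((Fin n → Fin (D + 1)) → ℚ) =>
    φ (Pi.single (w' ∘ g) 1) w) h1
  have h3 : actS D n (MonoidAlgebra.single g 1) (f (Pi.single (w' ∘ g) 1)) w =
      f (actS D n (MonoidAlgebra.single g 1) (Pi.single (w' ∘ g) 1)) w := h2
  rw [actS_single, one_mul, actS_basis, map_smul, Pi.smul_apply, smul_eq_mul] at h3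
  exact h3

open QCENX in
theorem psi_injS (D n : ℕ) (f : Module.End ℚ ((Fin n → Fin (D + 1)) → ℚ))
    (hf : f ∈ Subalgebra.centralizer ℚ (Set.range (actS D n))) (h0 : psi (D + 1) n f = 0) :
    f = 0 := by
  classical
  have h1 : ∀ w w' : Fin n → Fin (D + 1), f (Pi.single w' 1) w = 0 := by
    intro w w'
    have hex : ∃ p, rep (D + 1) n (ty fun i => (w i, w' i)) p := ⟨(w, w'), rfl⟩
    have h2 := congrFun h0 (ty fun i => (w i, w' i))
    have h3 : f (Pi.single hex.choose.2 1) hex.choose.1 = 0 := by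
      have h4 : psi (D + 1) n f (ty fun i => (w i, w' i)) =
        if h : ∃ p, rep (D + 1) n (ty fun i => (w i, w' i)) p then
          f (Pi.single h.choose.2 1) h.choose.1 else 0 := rfl
      rw [h4, dif_pos hex] at h2
      exact h2
    have h4 : ty (fun i => (hex.choose.1 i, hex.choose.2 i)) = ty fun i => (w i, w' i) :=
      hex.choose_spec
    obtain ⟨g, hg⟩ := exists_perm_of_ty h4.symm
    have h5 : hex.choose.1 ∘ g = w := funext fun i => congrArg Prod.fst (hg i)
    have h6 : hex.choose.2 ∘ g = w' := funext fun i => congrArg Prod.snd (hg i)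
    have h7 := entryS D n f hf g hex.choose.1 hex.choose.2
    rw [h5, h6, h3, mul_zero] at h7
    rcases mul_eq_zero.1 h7 with h8 | h8
    · have h9 := ep_sq g hex.choose.1
      rw [h8, mul_zero] at h9
      exact absurd h9 zero_ne_one
    · exact h8
  refine LinearMap.pi_ext' fun w' => ?_
  refine LinearMap.ext_ring ?_
  funext w
  exact h1 w w'

open QCENX in
theorem centralizer_leS (D n : ℕ) :
    Module.finrank ℚ (Subalgebra.centralizer ℚ (Set.range (actS D n))) ≤
      (n + 1) ^ ((D + 1) ^ 2) := by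
  let ψ : (Subalgebra.centralizer ℚ (Set.range (actS D n))) →ₗ[ℚ]
      ((Fin (D + 1) × Fin (D + 1) → Fin (n + 1)) → ℚ) :=
    (psi (D + 1) n).comp (Subalgebra.centralizer ℚ (Set.range (actS D n))).val.toLinearMap
  have hψ : Function.Injective ψ := by
    intro a b hab
    have h1 : psi (D + 1) n a.1 = psi (D + 1) n b.1 := hab
    have h2 : psi (D + 1) n (a.1 - b.1) = 0 := by rw [map_sub, h1, sub_self]
    exact Subtype.ext (sub_eq_zero.1 (psi_injS D n (a.1 - b.1) (sub_mem a.2 b.2) h2))
  refine (LinearMap.finrank_le_finrank_of_injective hψ).trans (le_of_eq ?_)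
  rw [Module.finrank_fintype_fun_eq_card, Fintype.card_fun, Fintype.card_prod, Fintype.card_fin,
    Fintype.card_fin, sq]

theorem cntS_of (D n : ℕ)
    (hcen : Module.finrank ℚ (Subalgebra.centralizer ℚ (Set.range (actS D n))) ≤
      (n + 1) ^ ((D + 1) ^ 2)) :
    ∃ (s : ℕ) (e : Fin s → QS n), (∀ i, e i * e i = e i) ∧
    (∀ i j, i ≠ j → e i * e j = 0) ∧ (∑ i, e i = 1) ∧
    (D + 1) ^ n ≤ {i | actS D n (e i) ≠ 0}.ncard * (n + 1) ^ ((D + 1) ^ 2) := by
  classical
  obtain ⟨s, e, h1, h2, h3, h4⟩ := sem n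
  refine ⟨s, e, h1, h2, h3, ?_⟩
  have hsum : ∀ w : (Fin n → Fin (D + 1)) → ℚ, ∑ i, actS D n (e i) w = w := by
    intro w
    rw [← LinearMap.sum_apply, ← map_sum, h3, map_one]
    rfl
  let ψ : ((Fin n → Fin (D + 1)) → ℚ) →ₗ[ℚ] (∀ i : Fin s, LinearMap.range (actS D n (e i))) :=
    LinearMap.pi fun i => (actS D n (e i)).rangeRestrict
  have hψ : Function.Injective ψ := by
    intro a b hab
    rw [← hsum a, ← hsum b]
    refine Finset.sum_congr rfl fun i _ => ?_
    exact congrArg Subtype.val (congrFun hab i)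
  have h5 := LinearMap.finrank_le_finrank_of_injective hψ
  rw [Module.finrank_fintype_fun_eq_card, Fintype.card_fun, Fintype.card_fin, Fintype.card_fin,
    Module.finrank_pi_fintype] at h5
  refine h5.trans ?_
  have h6 : ∀ i, Module.finrank ℚ (LinearMap.range (actS D n (e i))) ≤
      if actS D n (e i) ≠ 0 then (n + 1) ^ ((D + 1) ^ 2) else 0 := by
    intro i
    split_ifs with h
    · exact (rank_le (actS D n) (e i) (h1 i) (h4 i)).trans hcen
    · rw [not_not] at h
      rw [h, LinearMap.range_zero, finrank_bot]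
  refine (Finset.sum_le_sum fun i _ => h6 i).trans ?_
  rw [← Finset.sum_filter, Finset.sum_const, smul_eq_mul]
  refine Nat.mul_le_mul_right _ (le_of_eq ?_)
  rw [← Set.ncard_coe_finset]
  congr 1
  ext i
  simp

end Pool.Agent.Helper68.GP2
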