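import Pool.Agent.Helper91.GP2.Defs

/-!
# Board GP2, packages EPM and EPV: the sign
-/

open CategoryTheory MonoidalCategory Limits BraidedCategory

namespace Pool.Agent.Helper68.GP2

open Pool.Agent.TH90.AB Pool.Agent.TH90.Kim Pool.Agent.Helper96.Kim Pool.Agent.Helper96.SP
  Pool.Agent.Helper91.GP

theorem ep_one {n D : ℕ} (w : Fin n → Fin (D + 1)) : ep 1 w = 1 := by
  unfold ep
  refine Finset.prod_eq_one fun p _ => if_neg ?_
  rintro ⟨h1, -, -, h2⟩
  simp only [Equiv.Perm.one_apply] at h2
  exact absurd h1 (not_lt.2 h2.le)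

theorem prod_pairs {n : ℕ} (F : Fin n × Fin n → ℚ) (hF : ∀ a, F (a, a) = 1) :
    ∏ p, F p = ∏ p : Fin n × Fin n, (if p.1 < p.2 then F (p.1, p.2) * F (p.2, p.1) else 1) := by
  have h1 : ∀ p : Fin n × Fin n, F p =
      (if p.1 < p.2 then F p else 1) * (if p.2 < p.1 then F p else 1) := by
    rintro ⟨a, b⟩
    rcases lt_trichotomy a b with h | h | h
    · simp [h, h.not_gt]
    · subst h; simp [hF]
    · simp [h, h.not_gt]
  have h2 : ∏ p : Fin n × Fin n, (if p.2 < p.1 then F p else 1) =
      ∏ p : Fin n × Fin n, (if p.1 < p.2 then F (p.2, p.1) else 1) :=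
    Fintype.prod_equiv (Equiv.prodComm (Fin n) (Fin n)) _ _ fun p => rfl
  calc ∏ p, F p = ∏ p : Fin n × Fin n,
        ((if p.1 < p.2 then F p else 1) * (if p.2 < p.1 then F p else 1)) :=
        Finset.prod_congr rfl fun p _ => h1 p
    _ = _ := by
      rw [Finset.prod_mul_distrib, h2, ← Finset.prod_mul_distrib]
      refine Finset.prod_congr rfl fun p _ => ?_
      by_cases h : p.1 < p.2
      · simp only [if_pos h]
      · simp only [if_neg h, one_mul]

theorem ep_mul {n D : ℕ} (g h : Equiv.Perm (Fin n)) (w : Fin n → Fin (D + 1)) :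
    ep (g * h) w = ep g w * ep h (w ∘ g) := by
  let G : Fin n × Fin n → ℚ := fun p => if p.1 < p.2 ∧ w (g p.1) = Fin.last D ∧
    w (g p.2) = Fin.last D ∧ g p.2 < g p.1 then -1 else 1
  have h1 : ep g w = ∏ p : Fin n × Fin n, G (h p.1, h p.2) := by
    unfold ep
    exact (Fintype.prod_equiv (Equiv.prodCongr h h) _ _ fun p => rfl).symm
  rw [h1, prod_pairs (fun p => G (h p.1, h p.2)) (fun a => if_neg fun h2 => lt_irrefl _ h2.1)]
  unfold ep
  rw [← Finset.prod_mul_distrib]
  refine Finset.prod_congr rfl ?_
  rintro ⟨a, b⟩ -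
  simp only [Equiv.Perm.mul_apply, Function.comp_apply, G]
  by_cases hab : a < b
  · by_cases ha : w (g (h a)) = Fin.last D
    · by_cases hb : w (g (h b)) = Fin.last D
      · have hne : h a ≠ h b := fun h2 => hab.ne (h.injective h2)
        have hne' : g (h a) ≠ g (h b) := fun h2 => hne (g.injective h2)
        rcases lt_or_gt_of_ne hne with h2 | h2
        · rcases lt_or_gt_of_ne hne' with h3 | h3
          · simp [hab, ha, hb, h2, h3, h2.not_gt, h3.not_gt]
          · simp [hab, ha, hb, h2, h3, h2.not_gt, h3.not_gt]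
        · rcases lt_or_gt_of_ne hne' with h3 | h3
          · simp [hab, ha, hb, h2, h3, h2.not_gt, h3.not_gt]
          · simp [hab, ha, hb, h2, h3, h2.not_gt, h3.not_gt]
      · simp [hb]
    · simp [ha]
  · simp [hab]

theorem ep_sq {n D : ℕ} (g : Equiv.Perm (Fin n)) (w : Fin n → Fin (D + 1)) :
    ep g w * ep g w = 1 := by
  unfold ep
  rw [← Finset.prod_mul_distrib]
  refine Finset.prod_eq_one fun p _ => ?_
  split_ifs <;> norm_num

theorem ep_even {n D : ℕ} (i j : Fin n) (w : Fin n → Fin (D + 1)) (hi : w i ≠ Fin.last D)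
    (hj : w j ≠ Fin.last D) : ep (Equiv.swap i j) w = 1 := by
  unfold ep
  refine Finset.prod_eq_one fun p _ => if_neg ?_
  rintro ⟨h1, h2, h3, h4⟩
  have key : ∀ x, w (Equiv.swap i j x) = Fin.last D → Equiv.swap i j x = x := by
    intro x hx
    rw [Equiv.swap_apply_def] at hx ⊢
    split_ifs at hx ⊢ with q1 q2
    · exact absurd hx hj
    · exact absurd hx hi
    · rfl
  rw [key _ h2, key _ h3] at h4
  exact absurd h1 (not_lt.2 h4.le)

theorem ep_odd_lt {n D : ℕ} (i j : Fin n) (hij : i < j) (w : Fin n → Fin (D + 1))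
    (hi : w i = Fin.last D) (hj : w j = Fin.last D) : ep (Equiv.swap i j) w = -1 := by
  let B : Fin n → ℚ := fun x => if i < x ∧ x < j ∧ w x = Fin.last D then -1 else 1
  have hB : ∀ x, B x * B x = 1 := by
    intro x
    simp only [B]
    split_ifs <;> norm_num
  have hw : ∀ x, w (Equiv.swap i j x) = Fin.last D ↔ w x = Fin.last D := by
    intro x
    rw [Equiv.swap_apply_def]
    split_ifs with q1 q2
    · subst q1; simp [hi, hj]
    · subst q2; simp [hi, hj]
    · rfl
  have hc : ∀ p : Fin n × Fin n, (if p.1 < p.2 ∧ w (Equiv.swap i j p.1) = Fin.last D ∧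
      w (Equiv.swap i j p.2) = Fin.last D ∧ Equiv.swap i j p.2 < Equiv.swap i j p.1
      then (-1 : ℚ) else 1) =
      (if p.1 = i ∧ p.2 = j then -1 else 1) * ((if p.1 = i then B p.2 else 1) *
        (if p.2 = j then B p.1 else 1)) := by
    rintro ⟨a, b⟩
    simp only [hw]
    have hinv : a < b → (Equiv.swap i j b < Equiv.swap i j a ↔ (a = i ∧ b ≤ j) ∨ (b = j ∧ i ≤ a)) := by
      intro hab
      rw [Equiv.swap_apply_def, Equiv.swap_apply_def]
      split_ifs with q1 q2 q3 q4 q5 q6 <;>
        simp only [Fin.ext_iff, Fin.lt_def, Fin.le_def] at * <;> omega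
    by_cases hai : a = i
    · subst hai
      by_cases hbj : b = j
      · subst hbj
        have h1 : Equiv.swap a b b < Equiv.swap a b a := by
          rw [Equiv.swap_apply_left, Equiv.swap_apply_right]
          exact hij
        simp only [B, hij, hi, hj, h1, and_self, if_true, lt_irrefl, false_and, and_false, if_false,
          mul_one]
      · by_cases hab : a < b
        · have h1 := hinv hab
          by_cases hbj' : b < j
          · have h2 : Equiv.swap a j b < Equiv.swap a j a := h1.2 (Or.inl ⟨rfl, hbj'.le⟩)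
            simp only [B, hab, hbj, hbj', hi, h2, true_and, and_true, and_false, if_false, if_true,
              one_mul, mul_one]
          · have h2 : ¬ Equiv.swap a j b < Equiv.swap a j a := by
              rw [h1]
              rintro (⟨-, h3⟩ | ⟨h3, -⟩)
              · exact hbj' (lt_of_le_of_ne h3 hbj)
              · exact hbj h3
            simp only [B, hbj, hbj', h2, false_and, and_false, if_false, if_true, mul_one]
        · simp only [B, hab, hbj, false_and, and_false, if_false, if_true, mul_one]
    · by_cases hbj : b = j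
      · subst hbj
        by_cases hab : a < b
        · have h1 := hinv hab
          by_cases hia : i < a
          · have h2 : Equiv.swap i b b < Equiv.swap i b a := h1.2 (Or.inr ⟨rfl, hia.le⟩)
            simp only [B, hab, hai, hia, hj, h2, true_and, and_true, false_and, if_false, if_true,
              one_mul]
          · have h2 : ¬ Equiv.swap i b b < Equiv.swap i b a := by
              rw [h1]
              rintro (⟨h3, -⟩ | ⟨-, h3⟩)
              · exact hai h3
              · exact hia (lt_of_le_of_ne h3 (Ne.symm hai))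
            simp only [B, hai, hia, h2, false_and, and_false, if_false, if_true, mul_one]
        · simp only [B, hab, hai, false_and, and_false, if_false, if_true, mul_one]
      · have h2 : ¬ (a < b ∧ w a = Fin.last D ∧ w b = Fin.last D ∧
            Equiv.swap i j b < Equiv.swap i j a) := by
          rintro ⟨hab, -, -, h3⟩
          rcases (hinv hab).1 h3 with ⟨h4, -⟩ | ⟨h4, -⟩
          · exact hai h4
          · exact hbj h4
        simp only [h2, hai, hbj, false_and, if_false, mul_one]
  have e1 : ∏ p : Fin n × Fin n, (if p.1 = i ∧ p.2 = j then (-1 : ℚ) else 1) = -1 := by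
    rw [Finset.prod_eq_single (i, j)]
    · simp
    · rintro ⟨a, b⟩ - hne
      refine if_neg fun h2 => hne ?_
      exact Prod.ext h2.1 h2.2
    · intro h2
      exact absurd (Finset.mem_univ _) h2
  have e2 : ∏ p : Fin n × Fin n, (if p.1 = i then B p.2 else 1) = ∏ x, B x := by
    rw [Fintype.prod_prod_type, Finset.prod_comm]
    refine Finset.prod_congr rfl fun b _ => ?_
    exact (Finset.prod_ite_eq' Finset.univ i fun _ => B b).trans (if_pos (Finset.mem_univ _))
  have e3 : ∏ p : Fin n × Fin n, (if p.2 = j then B p.1 else 1) = ∏ x, B x := by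
    rw [Fintype.prod_prod_type]
    refine Finset.prod_congr rfl fun a _ => ?_
    exact (Finset.prod_ite_eq' Finset.univ j fun _ => B a).trans (if_pos (Finset.mem_univ _))
  unfold ep
  rw [Finset.prod_congr rfl fun p _ => hc p, Finset.prod_mul_distrib, Finset.prod_mul_distrib, e1,
    e2, e3, ← Finset.prod_mul_distrib, Finset.prod_eq_one fun x _ => hB x, mul_one]

theorem ep_odd {n D : ℕ} (i j : Fin n) (hij : i ≠ j) (w : Fin n → Fin (D + 1))
    (hi : w i = Fin.last D) (hj : w j = Fin.last D) : ep (Equiv.swap i j) w = -1 := by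
  rcases lt_or_gt_of_ne hij with h | h
  · exact ep_odd_lt i j h w hi hj
  · rw [Equiv.swap_comm]
    exact ep_odd_lt j i h w hj hi

end Pool.Agent.Helper68.GP2
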