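import Pool.Agent.Helper91.GP2.QI1

/-!
# Board GP2, package I2
-/

open CategoryTheory MonoidalCategory Limits BraidedCategory

namespace Pool.Agent.Helper68.GP2

open Pool.Agent.TH90.AB Pool.Agent.TH90.Kim Pool.Agent.Helper96.Kim Pool.Agent.Helper96.SP
  Pool.Agent.Helper91.GP

theorem fin2_psi_of
    (hev : ∀ (n D : ℕ) (i j : Fin n) (w : Fin n → Fin (D + 1)), w i ≠ Fin.last D →
      w j ≠ Fin.last D → ep (Equiv.swap i j) w = 1)
    (hodd : ∀ (n D : ℕ) (i j : Fin n), i ≠ j → ∀ w : Fin n → Fin (D + 1), w i = Fin.last D →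
      w j = Fin.last D → ep (Equiv.swap i j) w = -1)
    (hker : ∀ (E : Type) [Fintype E] [DecidableEq E] (D : ℕ) (j : E) (Ψ : (E → Fin D) → ℚ),
      (∀ w, ∑ i ∈ Finset.univ.erase j, Ψ (w ∘ Equiv.swap j i) = - (D : ℚ) * Ψ w) → Ψ = 0)
    {d n : ℕ} (v : (Fin n → Fin (d + 2)) → ℚ)
    (h : ∀ (g : Equiv.Perm (Fin n)) (j : Fin n) (w : Fin n → Fin (d + 2)),
      ∑ i ∈ Finset.univ.erase j, gv (Equiv.swap j i) (gv g v) w + d * gv g v w = 0)
    (j : Fin n) (w : Fin n → Fin (d + 2)) (hj : w j ≠ Fin.last (d + 1)) :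
    ∑ i ∈ Finset.univ.filter (fun i => w i = Fin.last (d + 1)),
      (gv (Equiv.swap j i) v w + v w) = 0 := by
  classical
  set S : Finset (Fin n) := Finset.univ.filter (fun i => w i = Fin.last (d + 1)) with hSdef
  have hjS : j ∉ S := fun h1 => hj (Finset.mem_filter.1 h1).2
  let T : Finset (Fin n) := (Finset.univ.erase j).filter (fun i => ¬ w i = Fin.last (d + 1))
  have hS : (Finset.univ.erase j).filter (fun i => w i = Fin.last (d + 1)) = S := by
    ext i
    simp only [S, Finset.mem_filter, Finset.mem_erase, Finset.mem_univ, and_true, true_and]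
    exact ⟨fun h1 => h1.2, fun h1 => ⟨fun h2 => hj (h2 ▸ h1), h1⟩⟩
  have split : ∀ f : Fin n → ℚ, ∑ i ∈ Finset.univ.erase j, f i = ∑ i ∈ S, f i + ∑ i ∈ T, f i := by
    intro f
    rw [← hS]
    exact (Finset.sum_filter_add_sum_filter_not (Finset.univ.erase j)
      (fun i => w i = Fin.last (d + 1)) f).symm
  have e0 : gv 1 v = v := by
    funext w
    change ep 1 w * v w = v w
    rw [ep_one, one_mul]
  let ψ : (Fin n → Fin (d + 2)) → ℚ := fun u => ∑ i ∈ S, (gv (Equiv.swap j i) v u + v u)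
  -- the equation for `ψ`
  have main : ∀ u : Fin n → Fin (d + 2), (∀ i, u i = Fin.last (d + 1) ↔ w i = Fin.last (d + 1)) →
      ∑ i ∈ T, ψ (u ∘ Equiv.swap j i) = -((d : ℚ) + 1) * ψ u := by
    intro u hu
    have huj : u j ≠ Fin.last (d + 1) := fun h1 => hj ((hu j).1 h1)
    have b1 : ∀ g : Equiv.Perm (Fin n), ∑ i ∈ T, gv (Equiv.swap j i) (gv g v) u =
        -(d : ℚ) * gv g v u - ∑ t ∈ S, gv (Equiv.swap j t) (gv g v) u := by
      intro g
      have := h g j u
      rw [split] at this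
      linarith
    have b2 : ∀ i ∈ T, ∀ f : (Fin n → Fin (d + 2)) → ℚ,
        gv (Equiv.swap j i) f u = f (u ∘ Equiv.swap j i) := by
      intro i hi f
      have hi' : u i ≠ Fin.last (d + 1) := fun h1 => (Finset.mem_filter.1 hi).2 ((hu i).1 h1)
      change ep _ u * f _ = _
      rw [hev _ _ j i u huj hi', one_mul]
    have b3 : ∑ i ∈ T, ψ (u ∘ Equiv.swap j i) =
        ∑ s ∈ S, (∑ i ∈ T, gv (Equiv.swap j i) (gv (Equiv.swap j s) v) u +
          ∑ i ∈ T, gv (Equiv.swap j i) (gv 1 v) u) := by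
      have c1 : ∀ i ∈ T, ψ (u ∘ Equiv.swap j i) = ∑ s ∈ S,
          (gv (Equiv.swap j i) (gv (Equiv.swap j s) v) u + gv (Equiv.swap j i) (gv 1 v) u) := by
        intro i hi
        refine Finset.sum_congr rfl fun s _ => ?_
        rw [b2 i hi, b2 i hi, e0]
      rw [Finset.sum_congr rfl c1, Finset.sum_comm]
      exact Finset.sum_congr rfl fun s _ => Finset.sum_add_distrib
    have b4 : ∀ s ∈ S, ∑ t ∈ S, gv (Equiv.swap j t) (gv (Equiv.swap j s) v) u =
        v u - ∑ t ∈ S, gv (Equiv.swap j t) v u + gv (Equiv.swap j s) v u := by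
      intro s hs
      have c0 := Finset.add_sum_erase S (fun t => gv (Equiv.swap j t) (gv (Equiv.swap j s) v) u) hs
      have c1 := Finset.add_sum_erase S (fun t => gv (Equiv.swap j t) v u) hs
      have c2 : gv (Equiv.swap j s) (gv (Equiv.swap j s) v) u = v u := by
        rw [← QI1X.gv_mul, Equiv.swap_mul_self, e0]
      have c3 : ∑ t ∈ S.erase s, gv (Equiv.swap j t) (gv (Equiv.swap j s) v) u =
          ∑ t ∈ S.erase s, - gv (Equiv.swap j t) v u := by
        refine Finset.sum_congr rfl fun t ht => ?_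
        have hts : t ≠ s := (Finset.mem_erase.1 ht).1
        have htS : t ∈ S := (Finset.mem_erase.1 ht).2
        have hut : u t = Fin.last (d + 1) := (hu t).2 (Finset.mem_filter.1 htS).2
        have hus : u s = Fin.last (d + 1) := (hu s).2 (Finset.mem_filter.1 hs).2
        have hjt : j ≠ t := fun h1 => hjS (h1 ▸ htS)
        have hjs : j ≠ s := fun h1 => hjS (h1 ▸ hs)
        have k1 : Equiv.swap j t * Equiv.swap j s = Equiv.swap t s * Equiv.swap j t := by
          rw [Equiv.mul_swap_eq_swap_mul (Equiv.swap j t) j s, Equiv.swap_apply_left,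
            Equiv.swap_apply_of_ne_of_ne hjs.symm hts.symm]
        rw [← QI1X.gv_mul, k1, QI1X.gv_mul]
        change ep (Equiv.swap t s) u * gv (Equiv.swap j t) v (u ∘ Equiv.swap t s) = _
        have k2 : u ∘ Equiv.swap t s = u := by
          funext x
          rw [Function.comp_apply, Equiv.swap_apply_def]
          split_ifs with q1 q2
          · rw [q1, hut, hus]
          · rw [q2, hut, hus]
          · rfl
        rw [hodd _ _ t s hts u hut hus, k2]
        ring
      rw [Finset.sum_neg_distrib] at c3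
      linarith
    rw [b3]
    have b5 : ∀ s ∈ S, (∑ i ∈ T, gv (Equiv.swap j i) (gv (Equiv.swap j s) v) u +
          ∑ i ∈ T, gv (Equiv.swap j i) (gv 1 v) u) =
        -((d : ℚ) + 1) * (gv (Equiv.swap j s) v u + v u) := by
      intro s hs
      rw [b1, b1, b4 s hs, e0]
      ring
    rw [Finset.sum_congr rfl b5, ← Finset.mul_sum]
  -- transport to the complement of `S`
  let E : Type := {i : Fin n // w i ≠ Fin.last (d + 1)}
  let ex : (E → Fin (d + 1)) → Fin n → Fin (d + 2) := fun x i =>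
    if hi : w i = Fin.last (d + 1) then Fin.last (d + 1) else (x ⟨i, hi⟩).castSucc
  have hexk : ∀ x i, w i = Fin.last (d + 1) → ex x i = Fin.last (d + 1) := fun x i hi => dif_pos hi
  have hexn : ∀ x i (hi : w i ≠ Fin.last (d + 1)), ex x i = (x ⟨i, hi⟩).castSucc :=
    fun x i hi => dif_neg hi
  have hexe : ∀ x i, ex x i = Fin.last (d + 1) ↔ w i = Fin.last (d + 1) := by
    intro x i
    refine ⟨fun h1 => ?_, hexk x i⟩
    by_contra h2
    rw [hexn x i h2] at h1
    exact (Fin.castSucc_lt_last _).ne h1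
  have hcomp : ∀ (x : E → Fin (d + 1)) (i : E),
      ex (x ∘ Equiv.swap (⟨j, hj⟩ : E) i) = ex x ∘ Equiv.swap j (i : Fin n) := by
    intro x i
    funext y
    rw [Function.comp_apply]
    by_cases hy : w y = Fin.last (d + 1)
    · have hyj : y ≠ j := fun h1 => hj (h1 ▸ hy)
      have hyi : y ≠ i := fun h1 => i.2 (h1 ▸ hy)
      rw [hexk _ y hy, Equiv.swap_apply_of_ne_of_ne hyj hyi, hexk _ y hy]
    · rw [hexn _ y hy, Function.comp_apply]
      have h1 : ((Equiv.swap (⟨j, hj⟩ : E) i ⟨y, hy⟩ : E) : Fin n) = Equiv.swap j (i : Fin n) y := by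
        rw [Equiv.swap_apply_def, Equiv.swap_apply_def]
        by_cases hxj : y = j
        · have : (⟨y, hy⟩ : E) = ⟨j, hj⟩ := Subtype.ext hxj
          rw [if_pos this, if_pos hxj]
        · have h2 : ¬ (⟨y, hy⟩ : E) = ⟨j, hj⟩ := fun h3 => hxj (congrArg Subtype.val h3)
          rw [if_neg h2, if_neg hxj]
          by_cases hxi : y = i
          · have : (⟨y, hy⟩ : E) = i := Subtype.ext hxi
            rw [if_pos this, if_pos hxi]
          · have h3 : ¬ (⟨y, hy⟩ : E) = i := fun h4 => hxi (congrArg Subtype.val h4)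
            rw [if_neg h3, if_neg hxi]
      have h2 : w (Equiv.swap j (i : Fin n) y) ≠ Fin.last (d + 1) := by
        rw [← h1]
        exact (Equiv.swap (⟨j, hj⟩ : E) i ⟨y, hy⟩).2
      rw [hexn _ _ h2]
      congr 2
      exact Subtype.ext h1
  have hΨ : (fun x : E → Fin (d + 1) => ψ (ex x)) = 0 := by
    refine hker E (d + 1) ⟨j, hj⟩ _ fun x => ?_
    have a1 := main (ex x) (hexe x)
    have a2 : ∑ i ∈ Finset.univ.erase (⟨j, hj⟩ : E), ψ (ex (x ∘ Equiv.swap (⟨j, hj⟩ : E) i)) =
        ∑ i ∈ T, ψ (ex x ∘ Equiv.swap j i) := by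
      refine Finset.sum_nbij (fun i : E => (i : Fin n)) ?_ ?_ ?_ ?_
      · intro i hi
        rw [Finset.mem_erase] at hi
        exact Finset.mem_filter.2 ⟨Finset.mem_erase.2 ⟨fun h1 => hi.1 (Subtype.ext h1),
          Finset.mem_univ _⟩, i.2⟩
      · intro a _ b _ hab
        exact Subtype.ext hab
      · intro i hi
        have hi' := Finset.mem_filter.1 (Finset.mem_coe.1 hi)
        refine ⟨⟨i, hi'.2⟩, ?_, rfl⟩
        refine Finset.mem_coe.2 (Finset.mem_erase.2 ⟨fun h1 => ?_, Finset.mem_univ _⟩)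
        exact (Finset.mem_erase.1 hi'.1).1 (congrArg Subtype.val h1)
      · intro i _
        rw [hcomp]
    rw [a2, a1]
    push_cast
    rfl
  let x0 : E → Fin (d + 1) := fun i => Fin.castPred (w i) i.2
  have hx0 : ex x0 = w := by
    funext y
    by_cases hy : w y = Fin.last (d + 1)
    · rw [hexk _ _ hy, hy]
    · rw [hexn _ _ hy]
      exact Fin.castSucc_castPred _ _
  have h1 : ψ (ex x0) = 0 := congrFun hΨ x0
  rw [hx0] at h1
  exact h1

end Pool.Agent.Helper68.GP2
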