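import Pool.Agent.Helper91.GP2.Defs

/-!
# Board GP2, package I5 (second attempt)
-/

open CategoryTheory MonoidalCategory Limits BraidedCategory

namespace Pool.Agent.Helper68.GP2

open Pool.Agent.TH90.AB Pool.Agent.TH90.Kim Pool.Agent.Helper96.Kim Pool.Agent.Helper96.SP
  Pool.Agent.Helper91.GP

theorem fin2_even_of
    (hev : ∀ (n D : ℕ) (i j : Fin n) (w : Fin n → Fin (D + 1)), w i ≠ Fin.last D →
      w j ≠ Fin.last D → ep (Equiv.swap i j) w = 1)
    (hker : ∀ (E : Type) [Fintype E] [DecidableEq E] (D : ℕ) (j : E) (Ψ : (E → Fin D) → ℚ),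
      (∀ w, ∑ i ∈ Finset.univ.erase j, Ψ (w ∘ Equiv.swap j i) = - (D : ℚ) * Ψ w) → Ψ = 0)
    {d n : ℕ} (v : (Fin n → Fin (d + 2)) → ℚ)
    (h : ∀ (g : Equiv.Perm (Fin n)) (j : Fin n) (w : Fin n → Fin (d + 2)),
      ∑ i ∈ Finset.univ.erase j, gv (Equiv.swap j i) (gv g v) w + d * gv g v w = 0)
    (j k : Fin n) (hjk : j ≠ k) (w : Fin n → Fin (d + 2)) (hw : ∀ i, w i ≠ Fin.last (d + 1)) :
    gv (Equiv.swap j k) v w = - v w := by
  have e1 : ∀ (f : (Fin n → Fin (d + 2)) → ℚ) (a b : Fin n) (w : Fin n → Fin (d + 2)),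
      (∀ i, w i ≠ Fin.last (d + 1)) → gv (Equiv.swap a b) f w = f (w ∘ Equiv.swap a b) := by
    intro f a b w hw
    change ep _ w * f _ = _
    rw [hev _ _ a b w (hw a) (hw b), one_mul]
  have e0 : gv 1 v = v := by
    funext w
    change ep 1 w * v w = v w
    rw [ep_one, one_mul]
  have e2 : ∀ w : Fin n → Fin (d + 2), (∀ i, w i ≠ Fin.last (d + 1)) →
      ∑ i ∈ (Finset.univ.erase j).erase k,
        (v (w ∘ Equiv.swap j i) + v ((w ∘ Equiv.swap j i) ∘ Equiv.swap j k)) =
      -((d : ℚ) + 1) * (v w + v (w ∘ Equiv.swap j k)) := by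
    intro w hw
    have a1 := h 1 j w
    have a2 := h (Equiv.swap j k) j w
    rw [e0] at a1
    have b1 : ∑ i ∈ Finset.univ.erase j, gv (Equiv.swap j i) v w =
        ∑ i ∈ Finset.univ.erase j, v (w ∘ Equiv.swap j i) :=
      Finset.sum_congr rfl fun i _ => e1 _ _ _ _ hw
    have b2 : ∑ i ∈ Finset.univ.erase j, gv (Equiv.swap j i) (gv (Equiv.swap j k) v) w =
        ∑ i ∈ Finset.univ.erase j, v ((w ∘ Equiv.swap j i) ∘ Equiv.swap j k) :=
      Finset.sum_congr rfl fun i _ => by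
        rw [e1 _ _ _ _ hw]
        exact e1 _ _ _ (w ∘ Equiv.swap j i) fun x => hw _
    rw [b1] at a1
    rw [b2, e1 _ _ _ _ hw] at a2
    have hk : k ∈ Finset.univ.erase j := Finset.mem_erase.2 ⟨hjk.symm, Finset.mem_univ _⟩
    have c1 := Finset.add_sum_erase _ (fun i => v (w ∘ Equiv.swap j i)) hk
    have c2 := Finset.add_sum_erase _ (fun i => v ((w ∘ Equiv.swap j i) ∘ Equiv.swap j k)) hk
    have c3 : (w ∘ Equiv.swap j k) ∘ Equiv.swap j k = w := by
      funext x
      simp only [Function.comp_apply, Equiv.swap_apply_self]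
    simp only [c3] at c2
    rw [Finset.sum_add_distrib]
    linarith
  classical
  let E : Type := {i : Fin n // i ≠ k}
  let ex : (E → Fin (d + 1)) → Fin n → Fin (d + 2) := fun u i =>
    if hi : i = k then w k else (u ⟨i, hi⟩).castSucc
  have hexk : ∀ u, ex u k = w k := fun u => dif_pos rfl
  have hexn : ∀ u i (hi : i ≠ k), ex u i = (u ⟨i, hi⟩).castSucc := fun u i hi => dif_neg hi
  have hexe : ∀ u i, ex u i ≠ Fin.last (d + 1) := by
    intro u i
    by_cases hi : i = k
    · rw [hi, hexk]; exact hw k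
    · rw [hexn u i hi]; exact (Fin.castSucc_lt_last _).ne
  let Ψ : (E → Fin (d + 1)) → ℚ := fun u => v (ex u) + v (ex u ∘ Equiv.swap j k)
  have hcomp : ∀ (u : E → Fin (d + 1)) (i : E),
      ex (u ∘ Equiv.swap (⟨j, hjk⟩ : E) i) = ex u ∘ Equiv.swap j (i : Fin n) := by
    intro u i
    funext x
    rw [Function.comp_apply]
    by_cases hx : x = k
    · rw [hx, hexk, Equiv.swap_apply_of_ne_of_ne hjk.symm (Ne.symm i.2), hexk]
    · rw [hexn _ x hx, Function.comp_apply]
      have h1 : ((Equiv.swap (⟨j, hjk⟩ : E) i ⟨x, hx⟩ : E) : Fin n) = Equiv.swap j (i : Fin n) x := by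
        rw [Equiv.swap_apply_def, Equiv.swap_apply_def]
        by_cases hxj : x = j
        · have : (⟨x, hx⟩ : E) = ⟨j, hjk⟩ := Subtype.ext hxj
          rw [if_pos this, if_pos hxj]
        · have h2 : ¬ (⟨x, hx⟩ : E) = ⟨j, hjk⟩ := fun h3 => hxj (congrArg Subtype.val h3)
          rw [if_neg h2, if_neg hxj]
          by_cases hxi : x = i
          · have : (⟨x, hx⟩ : E) = i := Subtype.ext hxi
            rw [if_pos this, if_pos hxi]
          · have h3 : ¬ (⟨x, hx⟩ : E) = i := fun h4 => hxi (congrArg Subtype.val h4)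
            rw [if_neg h3, if_neg hxi]
      have h2 : Equiv.swap j (i : Fin n) x ≠ k := by
        rw [← h1]
        exact (Equiv.swap (⟨j, hjk⟩ : E) i ⟨x, hx⟩).2
      rw [hexn _ _ h2]
      congr 2
      exact Subtype.ext h1
  have hΨ : Ψ = 0 := by
    refine hker E (d + 1) ⟨j, hjk⟩ Ψ fun u => ?_
    have a1 := e2 (ex u) (hexe u)
    have a2 : ∑ i ∈ Finset.univ.erase (⟨j, hjk⟩ : E), Ψ (u ∘ Equiv.swap (⟨j, hjk⟩ : E) i) =
        ∑ i ∈ (Finset.univ.erase j).erase k,
        (v (ex u ∘ Equiv.swap j i) + v ((ex u ∘ Equiv.swap j i) ∘ Equiv.swap j k)) := by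
      refine Finset.sum_nbij (fun i : E => (i : Fin n)) ?_ ?_ ?_ ?_
      · intro i hi
        rw [Finset.mem_erase] at hi
        simp only [Finset.mem_erase, Finset.mem_univ, and_true]
        exact ⟨i.2, fun h1 => hi.1 (Subtype.ext h1)⟩
      · intro a _ b _ hab
        exact Subtype.ext hab
      · intro i hi
        simp only [Finset.coe_erase, Set.mem_sdiff, Finset.mem_coe, Finset.mem_erase,
          Finset.mem_univ, and_true, Set.mem_singleton_iff] at hi
        refine ⟨⟨i, hi.2⟩, ?_, rfl⟩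
        simp only [Finset.mem_coe, Finset.mem_erase, Finset.mem_univ, and_true]
        intro h1
        exact absurd (congrArg Subtype.val h1) (by tauto)
      · intro i _
        simp only [Ψ, hcomp]
    rw [a2, a1]
    push_cast
    rfl
  let u0 : E → Fin (d + 1) := fun i => Fin.castPred (w i) (hw i)
  have hu0 : ex u0 = w := by
    funext x
    by_cases hx : x = k
    · rw [hx, hexk]
    · rw [hexn _ _ hx]
      exact Fin.castSucc_castPred _ _
  have h1 : v (ex u0) + v (ex u0 ∘ Equiv.swap j k) = 0 := congrFun hΨ u0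
  rw [hu0] at h1
  rw [e1 _ _ _ _ hw]
  linarith

end Pool.Agent.Helper68.GP2
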