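import Pool.Agent.Helper68.GP2.EP

/-!
# Board GP2, package STAR2
-/

open CategoryTheory MonoidalCategory Limits BraidedCategory

namespace Pool.Agent.Helper68.GP2

open Pool.Agent.TH90.AB Pool.Agent.TH90.Kim Pool.Agent.Helper96.Kim Pool.Agent.Helper96.SP
  Pool.Agent.Helper91.GP

/-- the matrix of the action -/
noncomputable def mtS (D n : ℕ) (x : QS n) :
    Matrix (Fin n → Fin (D + 1)) (Fin n → Fin (D + 1)) ℚ :=
  LinearMap.toMatrix' (actS D n x)

theorem ep_inv {n D : ℕ} (g : Equiv.Perm (Fin n)) (v : Fin n → Fin (D + 1)) :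
    ep g⁻¹ (v ∘ g) = ep g v := by
  have h1 := ep_mul g g⁻¹ v
  rw [mul_inv_cancel, ep_one] at h1
  have h2 := ep_sq g v
  have h3 : ep g v ≠ 0 := fun h4 => by rw [h4, mul_zero] at h2; exact zero_ne_one h2
  exact mul_left_cancel₀ h3 (h1.symm.trans h2.symm)

theorem mtS_adj (D n : ℕ) (x : QS n) : mtS D n (adj x) = (mtS D n x).transpose := by
  induction x using MonoidAlgebra.induction_linear with
  | zero => rw [adj_zero]; simp [mtS]
  | add a b ha hb =>
    unfold mtS at *
    rw [adj_add, map_add, map_add, map_add, map_add, ha, hb, Matrix.transpose_add]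
  | single g a =>
    rw [adj_single]
    ext w v
    rw [Matrix.transpose_apply]
    unfold mtS
    rw [LinearMap.toMatrix'_apply, LinearMap.toMatrix'_apply, actS_single, actS_single]
    congr 1
    rw [Pi.single_apply, Pi.single_apply]
    have this : (w ∘ ⇑g⁻¹ = v) ↔ (v ∘ ⇑g = w) := by
      constructor
      · rintro rfl
        ext i
        simp
      · rintro rfl
        ext i
        simp
    by_cases h : v ∘ ⇑g = w
    · rw [if_pos h, if_pos (this.2 h), mul_one, mul_one, ← h]
      exact ep_inv g v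
    · rw [if_neg h, if_neg fun h2 => h (this.1 h2), mul_zero, mul_zero]

theorem tauS_eq (D n : ℕ) (x : QS n) : tauS D n x = (mtS D n x).trace := by
  unfold tauS mtS
  rw [LinearMap.trace_eq_matrix_trace ℚ (Pi.basisFun ℚ (Fin n → Fin (D + 1))),
    LinearMap.toMatrix_eq_toMatrix']

theorem tauS_sq (D n : ℕ) (x : QS n) :
    tauS D n (adj x * x) = ∑ w, ∑ v, mtS D n x v w * mtS D n x v w := by
  rw [tauS_eq]
  have h : mtS D n (adj x * x) = (mtS D n x).transpose * mtS D n x := by
    rw [← mtS_adj]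
    unfold mtS
    rw [map_mul, Module.End.mul_eq_comp, LinearMap.toMatrix'_comp]
  rw [h]
  rfl

theorem tauS_nonneg (D n : ℕ) (x : QS n) : 0 ≤ tauS D n (adj x * x) := by
  rw [tauS_sq]
  exact Finset.sum_nonneg fun w _ => Finset.sum_nonneg fun v _ => mul_self_nonneg _

theorem tauS_faithful (D n : ℕ) (x : QS n) (h : tauS D n (adj x * x) = 0) : actS D n x = 0 := by
  rw [tauS_sq] at h
  have h1 : mtS D n x = 0 := by
    ext v w
    have h2 := (Finset.sum_eq_zero_iff_of_nonneg
      (fun w _ => Finset.sum_nonneg fun v _ => mul_self_nonneg _)).1 h w (Finset.mem_univ _)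
    have h3 := (Finset.sum_eq_zero_iff_of_nonneg (fun v _ => mul_self_nonneg _)).1 h2 v
      (Finset.mem_univ _)
    exact mul_self_eq_zero.1 h3
  unfold mtS at h1
  exact (LinearMap.toMatrix').map_eq_zero_iff.1 h1

theorem actS_adj (D n : ℕ) (x : QS n) (h : actS D n x = 0) : actS D n (adj x) = 0 := by
  have h1 : mtS D n (adj x) = 0 := by
    rw [mtS_adj, mtS, h, map_zero, Matrix.transpose_zero]
  unfold mtS at h1
  exact (LinearMap.toMatrix').map_eq_zero_iff.1 h1

end Pool.Agent.Helper68.GP2
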